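import Pool.Agent.Q132.GU.Emb

set_option autoImplicit false

/-!
# The cohomology of Goncharov's complexes of an extension in which the base is existentially closed
-/

namespace Pool.Agent.Q132.GU

open Filter GonP
open Pool.Agent.TH358.GP
open H39Gon (rmU rmM)

section base

/-- `φ` induces injective maps of all terms of the complexes `Γ(k,n) ⊗ ℚ → Γ(F,n) ⊗ ℚ`, which
commute with the differentials, and an element whose image is in the image of a differential is
itself in the image of the differential: the maps of the cohomology groups are injective. -/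
def InjectsCohomology {k F : Type} [Field k] [Field F] (φ : k →+* F) : Prop :=
  ∃ (T : ∀ m j : ℕ, TQ k (m + 2) j → TQ F (m + 2) j) (S : ∀ j : ℕ, LQ k j → LQ F j),
    (∀ m j, Induced φ (m + 2) j (T m j) ∧ Function.Injective (T m j)) ∧
    (∀ j, InducedL φ j (S j) ∧ Function.Injective (S j)) ∧
    ∀ (D : Differentials k) (D' : Differentials F),
      (∀ m j u, T m (j + 1) (D.d m j u) = D'.d m j (T (m + 1) j u)) ∧
      (∀ j u, S (j + 2) (D.e j u) = D'.e j (T 0 j u)) ∧
      (∀ m j u, (∃ v, T m (j + 1) u = D'.d m j v) → ∃ w, u = D.d m j w) ∧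
      (∀ j u, (∃ v, S (j + 2) u = D'.e j v) → ∃ w, u = D.e j w)

variable {k F : Type} [Field k] [Field F]

theorem comm_d (φ : k →+* F) (T : ∀ m j : ℕ, TQ k (m + 2) j →ₗ[ℚ] TQ F (m + 2) j)
    (hT : ∀ m j (x : P1 k) (y : Fin j → UV k),
      T m j (tq (m + 2) j x y) = tq (m + 2) j (x.map φ) (fun i => onUnits φ (y i)))
    (D : Differentials k) (D' : Differentials F) (m j : ℕ) (u : TQ k (m + 3) j) :
    T m (j + 1) (D.d m j u) = D'.d m j (T (m + 1) j u) := by
  have hD := D.d_spec m j
  have hD' := D'.d_spec m j
  have hlin1 : IsLinearMap ℚ (fun u => T m (j + 1) (D.d m j u)) :=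
    isLin ((T m (j + 1)) ∘ₗ (hD.1.mk' _))
  have hlin2 : IsLinearMap ℚ (fun u => D'.d m j (T (m + 1) j u)) :=
    isLin ((hD'.1.mk' _) ∘ₗ (T (m + 1) j))
  have h := text_P (m + 1) j _ _ hlin1 hlin2 (fun x y => ?_)
  · exact congrFun h u
  · beta_reduce
    rw [hT]
    cases x with
    | none =>
      rw [show D.d m j (tq (m + 1 + 2) j none y) = 0 from hD.2.1 y, map_zero]
      exact (hD'.2.1 _).symm
    | some x =>
      by_cases hx : x = 0
      · subst hx
        rw [show D.d m j (tq (m + 1 + 2) j (some 0) y) = 0 from hD.2.2.1 y, map_zero,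
          Option.map_some, map_zero]
        exact (hD'.2.2.1 _).symm
      · rw [show D.d m j (tq (m + 1 + 2) j (some x) y) = _ from hD.2.2.2 x y hx, hT]
        have hx' : φ x ≠ 0 := (map_ne_zero φ).2 hx
        rw [show D'.d m j (tq (m + 1 + 2) j (Option.map φ (some x)) fun i => onUnits φ (y i)) = _
          from hD'.2.2.2 (φ x) _ hx']
        congr 1
        funext i
        refine Fin.cases ?_ (fun i => ?_) i
        · rw [Fin.cons_zero, Fin.cons_zero, onUnits_cl]
        · rw [Fin.cons_succ, Fin.cons_succ]

theorem comm_e (φ : k →+* F) (T : ∀ m j : ℕ, TQ k (m + 2) j →ₗ[ℚ] TQ F (m + 2) j)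
    (hT : ∀ m j (x : P1 k) (y : Fin j → UV k),
      T m j (tq (m + 2) j x y) = tq (m + 2) j (x.map φ) (fun i => onUnits φ (y i)))
    (S : ∀ j : ℕ, LQ k j →ₗ[ℚ] LQ F j)
    (hS : ∀ j (y : Fin j → UV k), S j (lq j y) = lq j (fun i => onUnits φ (y i)))
    (D : Differentials k) (D' : Differentials F) (j : ℕ) (u : TQ k 2 j) :
    S (j + 2) (D.e j u) = D'.e j (T 0 j u) := by
  have hD := D.e_spec j
  have hD' := D'.e_spec j
  have hlin1 : IsLinearMap ℚ (fun u => S (j + 2) (D.e j u)) :=
    isLin ((S (j + 2)) ∘ₗ (hD.1.mk' _))
  have hlin2 : IsLinearMap ℚ (fun u => D'.e j (T 0 j u)) :=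
    isLin ((hD'.1.mk' _) ∘ₗ (T 0 j))
  have h := text_P 0 j _ _ hlin1 hlin2 (fun x y => ?_)
  · exact congrFun h u
  · beta_reduce
    rw [hT]
    cases x with
    | none =>
      rw [show D.e j (tq (0 + 2) j none y) = 0 from hD.2.1 y, map_zero]
      exact (hD'.2.1 _).symm
    | some x =>
      by_cases hx : x = 0
      · subst hx
        rw [show D.e j (tq (0 + 2) j (some 0) y) = 0 from hD.2.2.1 y, map_zero,
          Option.map_some, map_zero]
        exact (hD'.2.2.1 _).symm
      · by_cases hx1 : x = 1
        · subst hx1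
          rw [show D.e j (tq (0 + 2) j (some 1) y) = 0 from hD.2.2.2.1 y, map_zero,
            Option.map_some, map_one]
          exact (hD'.2.2.2.1 _).symm
        · rw [show D.e j (tq (0 + 2) j (some x) y) = _ from hD.2.2.2.2 x y hx hx1, hS]
          have hx' : φ x ≠ 0 := (map_ne_zero φ).2 hx
          have hx1' : φ x ≠ 1 := fun h => hx1 (φ.injective (by rw [h, map_one]))
          rw [show D'.e j (tq (0 + 2) j (Option.map φ (some x)) fun i => onUnits φ (y i)) = _
            from hD'.2.2.2.2 (φ x) _ hx' hx1']
          congr 1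
          funext i
          refine Fin.cases ?_ (fun i => ?_) i
          · rw [Fin.cons_zero, Fin.cons_zero, onUnits_cl, map_sub, map_one]
          · refine Fin.cases ?_ (fun i => ?_) i
            · rw [Fin.cons_succ, Fin.cons_succ, Fin.cons_zero, Fin.cons_zero, onUnits_cl]
            · rw [Fin.cons_succ, Fin.cons_succ, Fin.cons_succ, Fin.cons_succ]

variable {ι : Type} (U : Ultrafilter ι)

theorem cl_unit (y : UV k) : cl ((y.toMul : kˣ) : k) = y := by
  rw [cl, dif_neg (Units.ne_zero _)]
  apply Additive.toMul.injective
  ext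
  rfl

theorem nu_cst (y : UV k) : nu U k (rmU (cst U k) y) = up U (fun _ => y) := by
  have h : nu U k (rmU (cst U k) y) = up U (fun _ => cl ((y.toMul : kˣ) : k)) := rfl
  rw [h, cl_unit]

theorem nu_rep (y : UV (FU U k)) : ∃ g : ι → UV k, nu U k y = up U g :=
  ⟨_, (out_eq U (nu U k y)).symm⟩

variable (e : F →+* FU U k)

theorem exists_TE (m j : ℕ) : ∃ T : TQ F (m + 2) j →ₗ[ℚ] UP U (TQ k (m + 2) j),
    ∀ (x : P1 F) (y : Fin j → UV F) (f : ι → P1 k) (g : Fin j → ι → UV k),
      eP U (x.map e) = up U f → (∀ l, nu U k (rmU e (y l)) = up U (g l)) →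
      T (tq (m + 2) j x y) = up U (fun i => tq (m + 2) j (f i) (fun l => g l i)) := by
  obtain ⟨T1, hT1⟩ := exists_tm e m j
  obtain ⟨T2, hT2⟩ := exists_TU U k m j
  refine ⟨(upQ U (eT k m j).symm.toLinearMap) ∘ₗ T2 ∘ₗ T1 ∘ₗ (eT F m j).toLinearMap,
    fun x y f g hf hg => ?_⟩
  change upQ U (eT k m j).symm.toLinearMap (T2 (T1 (eT F m j (tq (m + 2) j x y)))) = _
  rw [eT_tq, hT1, hT2 _ _ f g hf hg, upQ_up]
  rw [up_eq]
  refine Filter.Eventually.of_forall fun i => ?_
  exact eT_symm_tq m j _ _

theorem exists_LE (j : ℕ) : ∃ T : LQ F j →ₗ[ℚ] UP U (LQ k j),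
    ∀ (y : Fin j → UV F) (g : Fin j → ι → UV k),
      (∀ l, nu U k (rmU e (y l)) = up U (g l)) →
      T (lq j y) = up U (fun i => lq j (fun l => g l i)) := by
  obtain ⟨T1, hT1⟩ := exists_lm e j
  obtain ⟨T2, hT2⟩ := exists_LU U k j
  refine ⟨(upQ U (eLQ k j).symm.toLinearMap) ∘ₗ T2 ∘ₗ T1 ∘ₗ (eLQ F j).toLinearMap,
    fun y g hg => ?_⟩
  change upQ U (eLQ k j).symm.toLinearMap (T2 (T1 (eLQ F j (lq j y)))) = _
  rw [eLQ_lq, hT1, hT2 _ g hg, upQ_up]
  rw [up_eq]
  refine Filter.Eventually.of_forall fun i => ?_
  exact eLQ_symm_lq j _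

variable (φ : k →+* F) (he : e.comp φ = cst U k)

/-- the diagonal map of the terms -/
noncomputable def dg (M : Type) [AddCommGroup M] [Module ℚ M] : M →ₗ[ℚ] UP U M where
  toFun u := up U (fun _ => u)
  map_add' _ _ := rfl
  map_smul' _ _ := rfl

include he in
theorem injects : InjectsCohomology φ := by
  choose T hT using fun m j => exists_T φ m j
  choose S hS using fun j => exists_S φ j
  choose TE hTE using fun m j => exists_TE U e m j
  choose LE hLE using fun j => exists_LE U e j
  have hnu : ∀ y : UV k, nu U k (rmU e (onUnits φ y)) = up U (fun _ => y) := by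
    intro y
    rw [← nu_cst U y, ← he]
    rfl
  have hxe : ∀ x : P1 k, eP U ((x.map φ).map e) = up U (fun _ => x) := by
    intro x
    rw [← eP_cst U x, ← he, Option.map_map]
    rfl
  have hTET : ∀ m j u, TE m j (T m j u) = up U (fun _ => u) := by
    intro m j u
    have h := text_P m j _ _ (isLin ((TE m j) ∘ₗ (T m j))) (isLin (dg U (TQ k (m + 2) j)))
      (fun x y => ?_)
    · exact congrFun h u
    · change TE m j (T m j (tq (m + 2) j x y)) = up U (fun _ => tq (m + 2) j x y)
      rw [hT, hTE m j _ _ (fun _ => x) (fun l _ => y l) (hxe x) (fun l => hnu (y l))]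
  have hLES : ∀ j u, LE j (S j u) = up U (fun _ => u) := by
    intro j u
    have h := lext_P j _ _ (isLin ((LE j) ∘ₗ (S j))) (isLin (dg U (LQ k j))) (fun y => ?_)
    · exact congrFun h u
    · change LE j (S j (lq j y)) = up U (fun _ => lq j y)
      rw [hS, hLE j _ (fun l _ => y l) (fun l => hnu (y l))]
  refine ⟨fun m j => T m j, fun j => S j, fun m j => ⟨⟨isLin _, hT m j⟩, fun u v huv => ?_⟩,
    fun j => ⟨⟨isLin _, hS j⟩, fun u v huv => ?_⟩, fun D D' => ⟨fun m j u => ?_, fun j u => ?_,
      fun m j u => ?_, fun j u => ?_⟩⟩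
  · have h1 := congrArg (TE m j) huv
    rw [hTET, hTET, up_eq] at h1
    exact h1.exists.choose_spec
  · have h1 := congrArg (LE j) huv
    rw [hLES, hLES, up_eq] at h1
    exact h1.exists.choose_spec
  · exact comm_d φ T hT D D' m j u
  · exact comm_e φ T hT S hS D D' j u
  · rintro ⟨v, hv⟩
    have hD := D.d_spec m j
    have hD' := D'.d_spec m j
    have hcomm : ∀ v, TE m (j + 1) (D'.d m j v) = upQ U (hD.1.mk' _) (TE (m + 1) j v) := by
      intro v
      have h := text_P (m + 1) j _ _ (isLin ((TE m (j + 1)) ∘ₗ (hD'.1.mk' _)))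
        (isLin ((upQ U (hD.1.mk' _)) ∘ₗ (TE (m + 1) j))) (fun x y => ?_)
      · exact congrFun h v
      · change TE m (j + 1) (D'.d m j (tq (m + 1 + 2) j x y)) =
          upQ U (hD.1.mk' _) (TE (m + 1) j (tq (m + 1 + 2) j x y))
        choose g hg using fun l => nu_rep U (rmU e (y l))
        cases x with
        | none =>
          rw [hTE (m + 1) j none y (fun _ => none) g rfl hg,
            show D'.d m j (tq (m + 1 + 2) j none y) = 0 from hD'.2.1 y, map_zero, upQ_up]
          symm
          rw [up_eq_zero]
          exact Filter.Eventually.of_forall fun i => hD.2.1 _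
        | some z =>
          obtain ⟨a, ha⟩ := rep U (e z)
          have hf : eP U ((some z).map e) = up U (fun i => some (a i)) := by
            rw [Option.map_some, ha]
            rfl
          rw [hTE (m + 1) j (some z) y _ g hf hg, upQ_up]
          by_cases hz : z = 0
          · rw [hz, show D'.d m j (tq (m + 1 + 2) j (some 0) y) = 0 from hD'.2.2.1 y, map_zero]
            symm
            rw [up_eq_zero]
            rw [hz, map_zero] at ha
            have h0 : ∀ᶠ i in (U : Filter ι), a i = 0 := (up_eq U).1 ha.symm
            filter_upwards [h0] with i hi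
            rw [hi]
            exact hD.2.2.1 _
          · rw [show D'.d m j (tq (m + 1 + 2) j (some z) y) = _ from hD'.2.2.2 z y hz]
            rw [hTE m (j + 1) (some z) _ (fun i => some (a i))
              (Fin.cons (fun i => cl (a i)) g) hf]
            · have h0 : ∀ᶠ i in (U : Filter ι), a i ≠ 0 := by
                rw [Ultrafilter.eventually_not]
                intro h
                have h1 : e z = 0 := by
                  rw [ha]
                  exact (up_eq U).2 h
                exact hz ((map_eq_zero e).1 h1)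
              rw [up_eq]
              filter_upwards [h0] with i hi
              refine (Eq.trans (hD.2.2.2 (a i) _ hi) ?_).symm
              congr 1
              funext l
              refine Fin.cases ?_ (fun l => ?_) l
              · rw [Fin.cons_zero, Fin.cons_zero]
              · rw [Fin.cons_succ, Fin.cons_succ]
            · intro l
              refine Fin.cases ?_ (fun l => ?_) l
              · rw [Fin.cons_zero, Fin.cons_zero]
                have h1 : rmU e (cl z) = cl (e z) := H39Gon.rmU_cl e z
                rw [h1, ha]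
                exact nu_cl U a
              · rw [Fin.cons_succ, Fin.cons_succ]
                exact hg l
    have h1 := congrArg (TE m (j + 1)) hv
    rw [hTET, hcomm] at h1
    obtain ⟨w, hw⟩ : ∃ w : ι → TQ k (m + 1 + 2) j, TE (m + 1) j v = up U w :=
      ⟨_, (out_eq U (TE (m + 1) j v)).symm⟩
    rw [hw, upQ_up, up_eq] at h1
    obtain ⟨i, hi⟩ := h1.exists
    exact ⟨w i, hi⟩
  · rintro ⟨v, hv⟩
    have hD := D.e_spec j
    have hD' := D'.e_spec j
    have hcomm : ∀ v, LE (j + 2) (D'.e j v) = upQ U (hD.1.mk' _) (TE 0 j v) := by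
      intro v
      have h := text_P 0 j _ _ (isLin ((LE (j + 2)) ∘ₗ (hD'.1.mk' _)))
        (isLin ((upQ U (hD.1.mk' _)) ∘ₗ (TE 0 j))) (fun x y => ?_)
      · exact congrFun h v
      · change LE (j + 2) (D'.e j (tq (0 + 2) j x y)) =
          upQ U (hD.1.mk' _) (TE 0 j (tq (0 + 2) j x y))
        choose g hg using fun l => nu_rep U (rmU e (y l))
        cases x with
        | none =>
          rw [hTE 0 j none y (fun _ => none) g rfl hg,
            show D'.e j (tq (0 + 2) j none y) = 0 from hD'.2.1 y, map_zero, upQ_up]
          symm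
          rw [up_eq_zero]
          exact Filter.Eventually.of_forall fun i => hD.2.1 _
        | some z =>
          obtain ⟨a, ha⟩ := rep U (e z)
          have hf : eP U ((some z).map e) = up U (fun i => some (a i)) := by
            rw [Option.map_some, ha]
            rfl
          rw [hTE 0 j (some z) y _ g hf hg, upQ_up]
          by_cases hz : z = 0
          · rw [hz, show D'.e j (tq (0 + 2) j (some 0) y) = 0 from hD'.2.2.1 y, map_zero]
            symm
            rw [up_eq_zero]
            rw [hz, map_zero] at ha
            have h0 : ∀ᶠ i in (U : Filter ι), a i = 0 := (up_eq U).1 ha.symm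
            filter_upwards [h0] with i hi
            rw [hi]
            exact hD.2.2.1 _
          · by_cases hz1 : z = 1
            · rw [hz1, show D'.e j (tq (0 + 2) j (some 1) y) = 0 from hD'.2.2.2.1 y, map_zero]
              symm
              rw [up_eq_zero]
              rw [hz1, map_one] at ha
              have h0 : ∀ᶠ i in (U : Filter ι), a i = 1 := (up_eq U).1 ha.symm
              filter_upwards [h0] with i hi
              rw [hi]
              exact hD.2.2.2.1 _
            · rw [show D'.e j (tq (0 + 2) j (some z) y) = _ from hD'.2.2.2.2 z y hz hz1]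
              rw [hLE (j + 2) _ (Fin.cons (fun i => cl (1 - a i))
                (Fin.cons (fun i => cl (a i)) g))]
              · have h0 : ∀ᶠ i in (U : Filter ι), a i ≠ 0 := by
                  rw [Ultrafilter.eventually_not]
                  intro h
                  have h1 : e z = 0 := by
                    rw [ha]
                    exact (up_eq U).2 h
                  exact hz ((map_eq_zero e).1 h1)
                have h01 : ∀ᶠ i in (U : Filter ι), a i ≠ 1 := by
                  rw [Ultrafilter.eventually_not]
                  intro h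
                  have h1 : e z = 1 := by
                    rw [ha]
                    exact (up_eq U).2 h
                  exact hz1 (e.injective (by rw [h1, map_one]))
                rw [up_eq]
                filter_upwards [h0, h01] with i hi hi1
                refine (Eq.trans (hD.2.2.2.2 (a i) _ hi hi1) ?_).symm
                congr 1
                funext l
                refine Fin.cases ?_ (fun l => ?_) l
                · rw [Fin.cons_zero, Fin.cons_zero]
                · refine Fin.cases ?_ (fun l => ?_) l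
                  · rw [Fin.cons_succ, Fin.cons_succ, Fin.cons_zero, Fin.cons_zero]
                  · rw [Fin.cons_succ, Fin.cons_succ, Fin.cons_succ, Fin.cons_succ]
              · intro l
                refine Fin.cases ?_ (fun l => ?_) l
                · rw [Fin.cons_zero, Fin.cons_zero]
                  have h1 : rmU e (cl (1 - z)) = cl (1 - e z) := by
                    rw [← map_one e, ← map_sub]
                    exact H39Gon.rmU_cl e (1 - z)
                  rw [h1, ha]
                  exact nu_cl U (fun i => 1 - a i)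
                · refine Fin.cases ?_ (fun l => ?_) l
                  · rw [Fin.cons_succ, Fin.cons_succ, Fin.cons_zero, Fin.cons_zero]
                    have h1 : rmU e (cl z) = cl (e z) := H39Gon.rmU_cl e z
                    rw [h1, ha]
                    exact nu_cl U a
                  · rw [Fin.cons_succ, Fin.cons_succ, Fin.cons_succ, Fin.cons_succ]
                    exact hg l
    have h1 := congrArg (LE (j + 2)) hv
    rw [hLES, hcomm] at h1
    obtain ⟨w, hw⟩ : ∃ w : ι → TQ k (0 + 2) j, TE 0 j v = up U w :=
      ⟨_, (out_eq U (TE 0 j v)).symm⟩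
    rw [hw, upQ_up, up_eq] at h1
    obtain ⟨i, hi⟩ := h1.exists
    exact ⟨w i, hi⟩

end base

end Pool.Agent.Q132.GU
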