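import Pool.Agent.Q132.GU.Coh

set_option autoImplicit false

/-!
# Extensions in which the base field is existentially closed
-/

namespace Pool.Agent.Q132.GU

open Filter GonP
open Pool.Agent.TH358.GP
open H39Gon (rmU rmM)

/-- `k` is existentially closed in the extension `F`: every finitely generated `k`-subalgebra
`k[f_1, …, f_r]` of `F` has a `k`-rational point (a homomorphism of `k`-algebras to `k`). -/
def ExClosed (k F : Type) [Field k] [Field F] [Algebra k F] : Prop :=
  ∀ S : Finset F, Nonempty (Algebra.adjoin k (S : Set F) →ₐ[k] k)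

variable {k F : Type} [Field k] [Field F] [Algebra k F]

theorem exists_emb (h : ExClosed k F) : ∃ (U : Ultrafilter (Finset F)) (e : F →+* FU U k),
    e.comp (algebraMap k F) = cst U k := by
  classical
  let π : ∀ S : Finset F, Algebra.adjoin k (S : Set F) →ₐ[k] k := fun S => Classical.choice (h S)
  let U : Ultrafilter (Finset F) := Ultrafilter.of atTop
  have hU : ∀ f : F, ∀ᶠ S in (U : Filter (Finset F)), f ∈ Algebra.adjoin k ((S : Finset F) : Set F) := by
    intro f
    have h1 : ∀ᶠ S in (atTop : Filter (Finset F)), f ∈ Algebra.adjoin k ((S : Finset F) : Set F) := by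
      filter_upwards [eventually_ge_atTop ({f} : Finset F)] with S hS
      exact Algebra.subset_adjoin (by simpa using hS)
    exact (Ultrafilter.of_le atTop) h1
  let v : F → Finset F → k := fun f S =>
    if hf : f ∈ Algebra.adjoin k ((S : Finset F) : Set F) then π S ⟨f, hf⟩ else 0
  have hv : ∀ (f : F) (S : Finset F) (hf : f ∈ Algebra.adjoin k ((S : Finset F) : Set F)),
      v f S = π S ⟨f, hf⟩ := fun f S hf => dif_pos hf
  have E : ∃ e : F →+* FU U k, ∀ f, e f = up U (v f) := by
    refine ⟨{ toFun := fun f => up U (v f),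
              map_one' := ?_, map_mul' := ?_, map_zero' := ?_, map_add' := ?_ }, fun f => rfl⟩
    · change up U (v 1) = up U (fun _ => 1)
      rw [up_eq]
      filter_upwards [hU 1] with S hS
      rw [hv 1 S hS]
      exact map_one (π S)
    · intro a b
      change up U (v (a * b)) = up U (fun S => v a S * v b S)
      rw [up_eq]
      filter_upwards [hU a, hU b] with S ha hb
      rw [hv a S ha, hv b S hb, hv (a * b) S (mul_mem ha hb), ← map_mul]
      rfl
    · change up U (v 0) = up U (fun _ => 0)
      rw [up_eq]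
      filter_upwards [hU 0] with S hS
      rw [hv 0 S hS]
      exact map_zero (π S)
    · intro a b
      change up U (v (a + b)) = up U (fun S => v a S + v b S)
      rw [up_eq]
      filter_upwards [hU a, hU b] with S ha hb
      rw [hv a S ha, hv b S hb, hv (a + b) S (add_mem ha hb), ← map_add]
      rfl
  obtain ⟨e, hE⟩ := E
  refine ⟨U, e, ?_⟩
  · ext c
    rw [RingHom.comp_apply, hE]
    change up U (v (algebraMap k F c)) = up U (fun _ => c)
    rw [up_eq]
    refine Filter.Eventually.of_forall fun S => ?_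
    rw [hv (algebraMap k F c) S (Subalgebra.algebraMap_mem _ c)]
    exact (π S).commutes c

/-- over an algebraically closed field -/
theorem exClosed_of_isAlgClosed [IsAlgClosed k] : ExClosed k F := by
  intro S
  have hft : Algebra.FiniteType k (Algebra.adjoin k (S : Set F)) :=
    Subalgebra.fg_iff_finiteType _ |>.1 ⟨S, rfl⟩
  obtain ⟨m, hm⟩ := Ideal.exists_maximal (Algebra.adjoin k (S : Set F))
  let _ : Field ((Algebra.adjoin k (S : Set F)) ⧸ m) := Ideal.Quotient.field m
  have hft' : Algebra.FiniteType k ((Algebra.adjoin k (S : Set F)) ⧸ m) :=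
    Algebra.FiniteType.of_surjective (Ideal.Quotient.mkₐ k m) (Ideal.Quotient.mkₐ_surjective k m)
  have hfin : Module.Finite k ((Algebra.adjoin k (S : Set F)) ⧸ m) :=
    finite_of_finite_type_of_isJacobsonRing k _
  have halg : Algebra.IsAlgebraic k ((Algebra.adjoin k (S : Set F)) ⧸ m) := inferInstance
  let g : ((Algebra.adjoin k (S : Set F)) ⧸ m) →ₐ[k] k := IsAlgClosed.lift
  exact ⟨g.comp (Ideal.Quotient.mkₐ k m)⟩

/-! ### the final statements -/

/-- `H^1`: for every `n ≥ 2`, an element of `ℤ[P^1_k]` is killed by `δ_n` if it is so over `F`. -/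
theorem main_B (h : ExClosed k F) (n : ℕ) (α β : GonP.ZP k)
    (hαβ : toQuo (GonP.R (n + 2) F) (rmM (algebraMap k F) α) =
      toQuo (GonP.R (n + 2) F) (rmM (algebraMap k F) β)) :
    toQuo (GonP.R (n + 2) k) α = toQuo (GonP.R (n + 2) k) β := by
  obtain ⟨U, e, he⟩ := exists_emb h
  have h1 : rmM (algebraMap k F) (α - β) ∈ H39Gon.R (n + 2) F := by
    have h2 : rmM (algebraMap k F) α - rmM (algebraMap k F) β ∈ GonP.R (n + 2) F :=
      (QuotientAddGroup.eq_iff_sub_mem).1 hαβ
    rw [R_eq, ← map_sub] at h2
    exact h2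
  have h3 := mem_R U (algebraMap k F) e he n _ h1
  refine (QuotientAddGroup.eq_iff_sub_mem).2 ?_
  rw [R_eq]
  exact h3

theorem main_A2 (h : ExClosed k F) (α : GonP.ZP k)
    (hα : rmM (algebraMap k F) α ∈ GonP.A2 F) : α ∈ GonP.A2 k := by
  obtain ⟨U, e, he⟩ := exists_emb h
  rw [A2_eq] at hα ⊢
  exact mem_delta2 U (algebraMap k F) e he α hα

theorem main_AS (h : ExClosed k F) (m : ℕ) (α : GonP.ZP k)
    (hα : rmM (algebraMap k F) α ∈ GonP.AS F (GonP.R (m + 2) F)) :
    α ∈ GonP.AS k (GonP.R (m + 2) k) := by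
  obtain ⟨U, e, he⟩ := exists_emb h
  rw [AS_eq (H39Gon.R (m + 2) F) _ (R_eq m)] at hα
  rw [AS_eq (H39Gon.R (m + 2) k) _ (R_eq m)]
  exact mem_deltaS U (algebraMap k F) e he m α hα

theorem main_coh (h : ExClosed k F) : InjectsCohomology (algebraMap k F) := by
  obtain ⟨U, e, he⟩ := exists_emb h
  exact injects U e (algebraMap k F) he

end Pool.Agent.Q132.GU
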