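import Pool.Agent.Q132.GU.Trans
import Pool.Agent.TH358.GP.Cx

set_option autoImplicit false

/-!
# Fields which embed in an ultrapower of the base field
-/

namespace Pool.Agent.Q132.GU

open Filter Polynomial H39Gon
open scoped TensorProduct
open Pool.Agent.TH358.GP

section base

variable {ι : Type} (U : Ultrafilter ι)

theorem up_const_zero {M : Type} [AddCommGroup M] {x : M} (h : up U (fun _ => x) = 0) : x = 0 := by
  rw [up_eq_zero] at h
  exact h.exists.choose_spec

theorem eP_cst {k : Type} [Field k] (x : P1 k) : eP U (x.map (cst U k)) = up U (fun _ => x) := by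
  cases x <;> rfl

theorem rho_cst (k : Type) [Field k] (r : ZP k) :
    rho U k (rmM (cst U k) r) = up U (fun _ => r) := by
  refine (zext ((rho U k).comp (rmM (cst U k))) (AddMonoidHom.toIntLinearMap
    { toFun := fun r : ZP k => up U (fun _ => r)
      map_zero' := rfl
      map_add' := fun _ _ => rfl }) (fun x => ?_) r :)
  change rho U k (rmM (cst U k) (Finsupp.single x 1)) = up U (fun _ => Finsupp.single x 1)
  rw [rmM_single, rho_single U _ (fun _ => x) (eP_cst U x)]

variable {k F : Type} [Field k] [Field F] (φ : k →+* F) (e : F →+* FU U k)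
  (he : e.comp φ = cst U k)

theorem rmM_comp {A B C : Type} [Field A] [Field B] [Field C] (f : A →+* B) (g : B →+* C)
    (r : ZP A) : rmM g (rmM f r) = rmM (g.comp f) r := by
  refine (zext ((rmM g).comp (rmM f)) (rmM (g.comp f)) (fun x => ?_) r :)
  change rmM g (rmM f (Finsupp.single x 1)) = rmM (g.comp f) (Finsupp.single x 1)
  rw [rmM_single, rmM_single, rmM_single, Option.map_map]
  rfl

include he in
theorem rho_e (r : ZP k) : rho U k (rmM e (rmM φ r)) = up U (fun _ => r) := by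
  rw [rmM_comp, he, rho_cst]

include he in
/-- `B_n(k) → B_n(F)` is injective -/
theorem mem_R (m : ℕ) (r : ZP k) (hr : rmM φ r ∈ R (m + 2) F) : r ∈ R (m + 2) k := by
  have h1 := transfer U m k (rmM e (rmM φ r)) (R_map e m _ hr)
  rw [rho_e U φ e he, upM_up] at h1
  have h2 := up_const_zero U h1
  rwa [Submodule.mkQ_apply, Submodule.Quotient.mk_eq_zero] at h2

/-- the elements killed by `δ` specialise to elements killed by `δ` -/
theorem ker_delta2 (α : ZP F) (hα : delta2 F α = 0) :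
    upM U (delta2 k) (rho U k (rmM e α)) = 0 := by
  rw [delta2_nat, rm_delta2, hα, map_zero, map_zero]

theorem ker_deltaS (m : ℕ) (α : ZP F) (hα : deltaS F (R (m + 2) F) α = 0) :
    upM U (deltaS k (R (m + 2) k)) (rho U k (rmM e α)) = 0 := by
  rw [deltaS_nat U k (R (m + 2) (FU U k)) (R (m + 2) k) (fun s hs => transfer U m k s hs),
    rm_deltaS e (R (m + 2) F) (R (m + 2) (FU U k)) (fun s hs => R_map e m s hs), hα, map_zero,
    map_zero]

include he in
theorem mem_delta2 (r : ZP k) (hr : delta2 F (rmM φ r) = 0) : delta2 k r = 0 := by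
  have h1 := ker_delta2 U e (rmM φ r) hr
  rw [rho_e U φ e he, upM_up] at h1
  exact up_const_zero U h1

include he in
theorem mem_deltaS (m : ℕ) (r : ZP k) (hr : deltaS F (R (m + 2) F) (rmM φ r) = 0) :
    deltaS k (R (m + 2) k) r = 0 := by
  have h1 := ker_deltaS U e m (rmM φ r) hr
  rw [rho_e U φ e he, upM_up] at h1
  exact up_const_zero U h1

/-! ### the terms of the complexes -/

/-- `(r, w) ↦ 1 ⊗ (r ⊗ w)` -/
noncomputable def bet (k : Type) [Field k] (m j : ℕ) :
    ZP k →ₗ[ℤ] (⋀[ℤ]^j (UV k)) →ₗ[ℤ] TQ k (m + 2) j :=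
  ((TensorProduct.mk ℤ (ZP k ⧸ R (m + 2) k) (⋀[ℤ]^j (UV k))).compr₂
    (e1one (M := (ZP k ⧸ R (m + 2) k) ⊗[ℤ] (⋀[ℤ]^j (UV k))))).comp (R (m + 2) k).mkQ

theorem bet_apply (k : Type) [Field k] (m j : ℕ) (x : P1 k) (y : Fin j → UV k) :
    bet k m j (Finsupp.single x 1) (exteriorPower.ιMulti ℤ j y) = tq k (m + 2) j x y := rfl

/-- the terms of the complexes of the ultrapower -/
theorem exists_TU (k : Type) [Field k] (m j : ℕ) :
    ∃ T : TQ (FU U k) (m + 2) j →ₗ[ℚ] UP U (TQ k (m + 2) j),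
      ∀ (x : P1 (FU U k)) (y : Fin j → UV (FU U k)) (f : ι → P1 k) (g : Fin j → ι → UV k),
        eP U x = up U f → (∀ l, nu U k (y l) = up U (g l)) →
        T (tq (FU U k) (m + 2) j x y) = up U (fun i => tq k (m + 2) j (f i) (fun l => g l i)) := by
  let b : ZP (FU U k) →ₗ[ℤ] ((⋀[ℤ]^j (UV (FU U k))) →ₗ[ℤ] UP U (TQ k (m + 2) j)) :=
    (upB U (bet k m j)).compl₁₂ (rho U k) (lamU U k j)
  have hb : ∀ r ∈ R (m + 2) (FU U k), b r = 0 := by
    intro r hr
    have h1 := transfer U m k r hr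
    apply LinearMap.ext
    intro w
    change upB U (bet k m j) (rho U k r) (lamU U k j w) = 0
    revert h1
    generalize rho U k r = β
    generalize lamU U k j w = ω
    induction β using up_ind with | _ β => ?_
    induction ω using up_ind with | _ ω => ?_
    intro h1
    rw [upM_up, up_eq_zero] at h1
    rw [upB_up, up_eq_zero]
    filter_upwards [h1] with i hi
    change (1 : ℚ) ⊗ₜ[ℤ] ((R (m + 2) k).mkQ (β i) ⊗ₜ[ℤ] ω i) = 0
    rw [hi, TensorProduct.zero_tmul, TensorProduct.tmul_zero]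
  refine ⟨e1lift b hb, fun x y f g hf hg => ?_⟩
  rw [e1lift_apply]
  change upB U (bet k m j) (rho U k (Finsupp.single x 1))
    (lamU U k j (exteriorPower.ιMulti ℤ j y)) = _
  rw [rho_single U x f hf, lamU_apply U k j y g hg, upB_up]
  rfl

theorem exists_LU (k : Type) [Field k] (j : ℕ) :
    ∃ T : LQ (FU U k) j →ₗ[ℚ] UP U (LQ k j),
      ∀ (y : Fin j → UV (FU U k)) (g : Fin j → ι → UV k),
        (∀ l, nu U k (y l) = up U (g l)) →
        T (lq (FU U k) j y) = up U (fun i => lq k j (fun l => g l i)) := by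
  let b : (⋀[ℤ]^j (UV (FU U k))) →ₗ[ℤ] UP U (LQ k j) :=
    (upM U (e1one (M := ⋀[ℤ]^j (UV k)))).comp (lamU U k j)
  refine ⟨LinearMap.liftBaseChange ℚ (AddMonoidHom.toIntLinearMap b.toAddMonoidHom),
    fun y g hg => ?_⟩
  unfold lq
  rw [LinearMap.liftBaseChange_tmul, one_smul]
  change upM U (e1one (M := ⋀[ℤ]^j (UV k))) (lamU U k j (exteriorPower.ιMulti ℤ j y)) = _
  rw [lamU_apply U k j y g hg, upM_up]
  rfl

end base

end Pool.Agent.Q132.GU
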