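import Pool.Agent.TH358.GP.Path
import Pool.Agent.TH358.GP.Funct
import Pool.Agent.H39R2.Gon.E2

set_option autoImplicit false

/-!
# Ultrapowers of fields, of abelian groups and of Goncharov's groups
-/

namespace Pool.Agent.Q132.GU

open Filter Polynomial H39Gon
open scoped TensorProduct

section base

variable {ι : Type} (U : Ultrafilter ι)

/-- the ultrapower of a field -/
abbrev FU (F : Type) : Type := Germ (U : Filter ι) F

/-- the ultrapower of an abelian group -/
def UP (M : Type) : Type := Germ (U : Filter ι) M

noncomputable instance (M : Type) [AddCommGroup M] : AddCommGroup (UP U M) :=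
  inferInstanceAs (AddCommGroup (Germ (U : Filter ι) M))

noncomputable instance (M : Type) [AddCommGroup M] [Module ℚ M] : Module ℚ (UP U M) :=
  inferInstanceAs (Module ℚ (Germ (U : Filter ι) M))

/-- the class of a family -/
def up {M : Type} (f : ι → M) : UP U M := (f : Germ (U : Filter ι) M)

theorem up_eq {M : Type} {f g : ι → M} :
    up U f = up U g ↔ ∀ᶠ i in (U : Filter ι), f i = g i := Germ.coe_eq

theorem up_ind {M : Type} {p : UP U M → Prop} (h : ∀ f : ι → M, p (up U f)) (x : UP U M) : p x :=
  Germ.inductionOn x h

theorem up_add {M : Type} [AddCommGroup M] (f g : ι → M) :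
    up U f + up U g = up U (fun i => f i + g i) := rfl

theorem up_zero {M : Type} [AddCommGroup M] : (0 : UP U M) = up U (fun _ => 0) := rfl

theorem up_sub {M : Type} [AddCommGroup M] (f g : ι → M) :
    up U f - up U g = up U (fun i => f i - g i) := rfl

theorem up_zsmul {M : Type} [AddCommGroup M] (c : ℤ) (f : ι → M) :
    c • up U f = up U (fun i => c • f i) := rfl

theorem up_qsmul {M : Type} [AddCommGroup M] [Module ℚ M] (c : ℚ) (f : ι → M) :
    c • up U f = up U (fun i => c • f i) := rfl

theorem up_eq_zero {M : Type} [AddCommGroup M] {f : ι → M} :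
    up U f = 0 ↔ ∀ᶠ i in (U : Filter ι), f i = 0 := by
  rw [up_zero, up_eq]

/-- induced maps -/
def upF {M N : Type} (f : M → N) (x : UP U M) : UP U N := Germ.map f x

theorem upF_up {M N : Type} (f : M → N) (a : ι → M) :
    upF U f (up U a) = up U (fun i => f (a i)) := rfl

/-- induced linear maps -/
noncomputable def upM {M N : Type} [AddCommGroup M] [AddCommGroup N] (f : M →ₗ[ℤ] N) :
    UP U M →ₗ[ℤ] UP U N :=
  AddMonoidHom.toIntLinearMap
    { toFun := fun x => Germ.map f x
      map_zero' := by
        change up U (fun _ => f 0) = up U (fun _ => 0)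
        rw [map_zero]
      map_add' := by
        intro x y
        induction x using up_ind with | _ x => ?_
        induction y using up_ind with | _ y => ?_
        change up U (fun i => f (x i + y i)) = up U (fun i => f (x i) + f (y i))
        simp only [map_add] }

theorem upM_up {M N : Type} [AddCommGroup M] [AddCommGroup N] (f : M →ₗ[ℤ] N) (a : ι → M) :
    upM U f (up U a) = up U (fun i => f (a i)) := rfl

/-- induced `ℚ`-linear maps -/
noncomputable def upQ {M N : Type} [AddCommGroup M] [AddCommGroup N] [Module ℚ M] [Module ℚ N]
    (f : M →ₗ[ℚ] N) : UP U M →ₗ[ℚ] UP U N where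
  toFun := fun x => Germ.map f x
  map_add' := by
    intro x y
    induction x using up_ind with | _ x => ?_
    induction y using up_ind with | _ y => ?_
    change up U (fun i => f (x i + y i)) = up U (fun i => f (x i) + f (y i))
    simp only [map_add]
  map_smul' := by
    intro c x
    induction x using up_ind with | _ x => ?_
    change up U (fun i => f (c • x i)) = up U (fun i => c • f (x i))
    simp only [map_smul]

theorem upQ_up {M N : Type} [AddCommGroup M] [AddCommGroup N] [Module ℚ M] [Module ℚ N]
    (f : M →ₗ[ℚ] N) (a : ι → M) : upQ U f (up U a) = up U (fun i => f (a i)) := rfl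

/-- induced bilinear maps -/
noncomputable def upB {A B C : Type} [AddCommGroup A] [AddCommGroup B] [AddCommGroup C]
    (β : A →ₗ[ℤ] B →ₗ[ℤ] C) : UP U A →ₗ[ℤ] UP U B →ₗ[ℤ] UP U C :=
  LinearMap.mk₂ ℤ (fun a b => (Germ.map₂ (fun x y => β x y) a b : Germ (U : Filter ι) C))
    (by
      intro x y z
      induction x using up_ind with | _ x => ?_
      induction y using up_ind with | _ y => ?_
      induction z using up_ind with | _ z => ?_
      change up U (fun i => β (x i + y i) (z i)) = up U (fun i => β (x i) (z i) + β (y i) (z i))
      simp only [map_add, LinearMap.add_apply])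
    (by
      intro c x z
      induction x using up_ind with | _ x => ?_
      induction z using up_ind with | _ z => ?_
      change up U (fun i => β (c • x i) (z i)) = up U (fun i => c • β (x i) (z i))
      simp only [map_smul, LinearMap.smul_apply])
    (by
      intro x y z
      induction x using up_ind with | _ x => ?_
      induction y using up_ind with | _ y => ?_
      induction z using up_ind with | _ z => ?_
      change up U (fun i => β (x i) (y i + z i)) = up U (fun i => β (x i) (y i) + β (x i) (z i))
      simp only [map_add])
    (by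
      intro c x z
      induction x using up_ind with | _ x => ?_
      induction z using up_ind with | _ z => ?_
      change up U (fun i => β (x i) (c • z i)) = up U (fun i => c • β (x i) (z i))
      simp only [map_smul])

theorem upB_up {A B C : Type} [AddCommGroup A] [AddCommGroup B] [AddCommGroup C]
    (β : A →ₗ[ℤ] B →ₗ[ℤ] C) (a : ι → A) (b : ι → B) :
    upB U β (up U a) (up U b) = up U (fun i => β (a i) (b i)) := rfl

/-! ### fields and polynomials -/

/-- induced ring homomorphisms -/
noncomputable def gR {A B : Type} [CommRing A] [CommRing B] (f : A →+* B) :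
    Germ (U : Filter ι) A →+* Germ (U : Filter ι) B where
  toFun := Germ.map f
  map_one' := by
    change up U (fun _ => f 1) = up U (fun _ => 1)
    rw [map_one]
  map_zero' := by
    change up U (fun _ => f 0) = up U (fun _ => 0)
    rw [map_zero]
  map_mul' := by
    intro x y
    induction x using Germ.inductionOn with | _ x => ?_
    induction y using Germ.inductionOn with | _ y => ?_
    change up U (fun i => f (x i * y i)) = up U (fun i => f (x i) * f (y i))
    simp only [map_mul]
  map_add' := by
    intro x y
    induction x using Germ.inductionOn with | _ x => ?_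
    induction y using Germ.inductionOn with | _ y => ?_
    change up U (fun i => f (x i + y i)) = up U (fun i => f (x i) + f (y i))
    simp only [map_add]

/-- the diagonal embedding -/
noncomputable def cst (F : Type) [Field F] : F →+* FU U F where
  toFun c := ((fun _ => c : ι → F) : Germ (U : Filter ι) F)
  map_one' := rfl
  map_zero' := rfl
  map_mul' _ _ := rfl
  map_add' _ _ := rfl

variable (F : Type) [Field F]

/-- polynomials over the ultrapower are germs of polynomials -/
noncomputable def thP : (FU U F)[X] →+* Germ (U : Filter ι) F[X] :=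
  Polynomial.eval₂RingHom (gR U Polynomial.C) ((fun _ => X : ι → F[X]) : Germ (U : Filter ι) F[X])

theorem thP_C (c : FU U F) : thP U F (C c) = gR U Polynomial.C c := by
  simp [thP]

theorem thP_X : thP U F X = ((fun _ => X : ι → F[X]) : Germ (U : Filter ι) F[X]) := by
  simp [thP]

theorem thP_eval (t0 : F) (P : (FU U F)[X]) :
    gR U (Polynomial.evalRingHom t0) (thP U F P) = P.eval (cst U F t0) := by
  have h : (gR U (Polynomial.evalRingHom t0)).comp (thP U F) =
      Polynomial.evalRingHom (cst U F t0) := by
    apply Polynomial.ringHom_ext
    · intro c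
      rw [RingHom.comp_apply, thP_C]
      induction c using Germ.inductionOn with | _ c => ?_
      rw [Polynomial.coe_evalRingHom, eval_C]
      change up U (fun i => (Polynomial.evalRingHom t0) (C (c i))) = up U c
      simp
    · rw [RingHom.comp_apply, thP_X]
      rw [Polynomial.coe_evalRingHom, eval_X]
      change up U (fun i => (Polynomial.evalRingHom t0) (X : F[X])) = up U (fun _ => t0)
      simp
  exact congrArg (fun g => g P) h

theorem thP_coeff (n : ℕ) (P : (FU U F)[X]) :
    Germ.map (fun Q : F[X] => Q.coeff n) (thP U F P) = P.coeff n := by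
  induction P using Polynomial.induction_on' with
  | add p q hp hq =>
    rw [map_add, coeff_add, ← hp, ← hq]
    generalize thP U F p = x
    generalize thP U F q = y
    induction x using Germ.inductionOn with | _ x => ?_
    induction y using Germ.inductionOn with | _ y => ?_
    change up U (fun i => (x i + y i).coeff n) = up U (fun i => (x i).coeff n + (y i).coeff n)
    simp only [coeff_add]
  | monomial k a =>
    rw [← C_mul_X_pow_eq_monomial, map_mul, map_pow, thP_C, thP_X]
    induction a using Germ.inductionOn with | _ a => ?_
    rw [coeff_C_mul_X_pow]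
    change up U (fun i => (C (a i) * X ^ k).coeff n) = _
    simp only [coeff_C_mul_X_pow]
    by_cases h : n = k
    · simp only [h, if_true]
      rfl
    · simp only [h, if_false]
      rfl

theorem thP_inj : Function.Injective (thP U F) := by
  rw [injective_iff_map_eq_zero]
  intro P hP
  ext n
  rw [← thP_coeff, hP, coeff_zero]
  change up U (fun _ => (0 : F[X]).coeff n) = up U (fun _ => 0)
  simp

theorem sg0_inj : Function.Injective
    ((gR U (algebraMap F[X] (RatFunc F))).comp (thP U F)) := by
  rw [injective_iff_map_eq_zero]
  intro P hP
  rw [RingHom.comp_apply] at hP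
  apply thP_inj U F
  rw [map_zero]
  revert hP
  generalize thP U F P = x
  induction x using Germ.inductionOn with | _ x => ?_
  intro hx
  have hA : Function.Injective (algebraMap F[X] (RatFunc F)) := IsFractionRing.injective _ _
  have h1 : up U (fun i => algebraMap F[X] (RatFunc F) (x i)) = up U (fun _ => 0) := hx
  change up U x = up U (fun _ => 0)
  rw [up_eq] at h1 ⊢
  filter_upwards [h1] with i hi
  exact hA (by rw [hi, map_zero])

/-- rational functions over the ultrapower are germs of rational functions -/
noncomputable def sg : RatFunc (FU U F) →+* FU U (RatFunc F) :=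
  IsFractionRing.lift (A := (FU U F)[X]) (sg0_inj U F)

theorem sg_alg (P : (FU U F)[X]) : sg U F (algebraMap (FU U F)[X] (RatFunc (FU U F)) P) =
    gR U (algebraMap F[X] (RatFunc F)) (thP U F P) :=
  IsFractionRing.lift_algebraMap (sg0_inj U F) P

/-! ### points of the projective line -/

/-- a point of the projective line over the ultrapower as a germ of points -/
def eP {F : Type} : P1 (FU U F) → UP U (P1 F)
  | none => up U (fun _ => none)
  | some x => Germ.map some x

theorem rep {F : Type} (x : FU U F) : ∃ a : ι → F, x = (a : Germ (U : Filter ι) F) :=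
  Germ.inductionOn x (fun a => ⟨a, rfl⟩)

theorem eP_some {F : Type} (a : ι → F) :
    eP U (some (a : Germ (U : Filter ι) F)) = up U (fun i => some (a i)) := rfl

theorem eP_spec (t0 : F) (x : P1 (RatFunc (FU U F))) :
    eP U (spec (FU U F) (cst U F t0) x) = upF U (spec F t0) (eP U (x.map (sg U F))) := by
  classical
  cases x with
  | none => rfl
  | some f =>
    obtain ⟨a, b, hab⟩ := f.isCoprime_num_denom
    have hn : ∃ n : ι → F[X], thP U F f.num = (n : Germ (U : Filter ι) F[X]) :=
      Germ.inductionOn (thP U F f.num) (fun n => ⟨n, rfl⟩)
    have hd : ∃ n : ι → F[X], thP U F f.denom = (n : Germ (U : Filter ι) F[X]) :=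
      Germ.inductionOn (thP U F f.denom) (fun n => ⟨n, rfl⟩)
    have ha : ∃ n : ι → F[X], thP U F a = (n : Germ (U : Filter ι) F[X]) :=
      Germ.inductionOn (thP U F a) (fun n => ⟨n, rfl⟩)
    have hb : ∃ n : ι → F[X], thP U F b = (n : Germ (U : Filter ι) F[X]) :=
      Germ.inductionOn (thP U F b) (fun n => ⟨n, rfl⟩)
    obtain ⟨n, hn⟩ := hn
    obtain ⟨d, hd⟩ := hd
    obtain ⟨a', ha⟩ := ha
    obtain ⟨b', hb⟩ := hb
    -- Bezout
    have h1 : ∀ᶠ i in (U : Filter ι), a' i * n i + b' i * d i = 1 := by
      have h := congrArg (thP U F) hab
      rw [map_add, map_mul, map_mul, map_one, hn, hd, ha, hb] at h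
      exact (up_eq U).1 h
    have hd0 : ∀ᶠ i in (U : Filter ι), d i ≠ 0 := by
      rw [Ultrafilter.eventually_not]
      intro h
      have h2 : thP U F f.denom = 0 := by
        rw [hd]
        exact (up_eq U).2 h
      exact f.denom_ne_zero (thP_inj U F (by rw [h2, map_zero]))
    -- the image of `f`
    have hf : sg U F f = ((fun i => algebraMap F[X] (RatFunc F) (n i) /
        algebraMap F[X] (RatFunc F) (d i) : ι → RatFunc F) :
          Germ (U : Filter ι) (RatFunc F)) := by
      conv_lhs => rw [← f.num_div_denom]
      rw [map_div₀, sg_alg, sg_alg, hn, hd]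
      rfl
    have hde : f.denom.eval (cst U F t0) = ((fun i => (d i).eval t0 : ι → F) :
        Germ (U : Filter ι) F) := by
      rw [← thP_eval, hd]
      rfl
    have hne : f.num.eval (cst U F t0) = ((fun i => (n i).eval t0 : ι → F) :
        Germ (U : Filter ι) F) := by
      rw [← thP_eval, hn]
      rfl
    have key : ∀ᶠ i in (U : Filter ι), spec F t0 (some (algebraMap F[X] (RatFunc F) (n i) /
        algebraMap F[X] (RatFunc F) (d i))) =
        if (d i).eval t0 = 0 then none else some ((n i).eval t0 / (d i).eval t0) := by
      filter_upwards [h1, hd0] with i hi hi0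
      exact rm_spec_eq t0 (n i) (d i) hi0 ⟨a' i, b' i, hi⟩ _ rfl
    rw [Option.map_some, hf, eP_some]
    change _ = up U (fun i => spec F t0 (some (algebraMap F[X] (RatFunc F) (n i) /
      algebraMap F[X] (RatFunc F) (d i))))
    by_cases h0 : f.denom.eval (cst U F t0) = 0
    · have h2 : spec (FU U F) (cst U F t0) (some f) = none := by simp [spec, h0]
      rw [h2]
      change up U (fun _ => none) = _
      rw [hde] at h0
      have h3 : ∀ᶠ i in (U : Filter ι), (d i).eval t0 = 0 := (up_eq U).1 h0
      rw [up_eq]
      filter_upwards [h3, key] with i hi hk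
      rw [hk, if_pos hi]
    · have h2 : spec (FU U F) (cst U F t0) (some f) =
          some (f.num.eval (cst U F t0) / f.denom.eval (cst U F t0)) := by simp [spec, h0]
      rw [h2, hne, hde]
      change up U (fun i => some ((n i).eval t0 / (d i).eval t0)) = _
      rw [hde] at h0
      have h3 : ∀ᶠ i in (U : Filter ι), (d i).eval t0 ≠ 0 := by
        rw [Ultrafilter.eventually_not]
        intro h
        exact h0 ((up_eq U).2 h)
      rw [up_eq]
      filter_upwards [h3, key] with i hi hk
      rw [hk, if_neg hi]

end base

end Pool.Agent.Q132.GU
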