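import Pool.Agent.Q132.GU.EC
import Pool.Agent.TH358.GP.Ret

set_option autoImplicit false

/-!
# Function fields of retract rational varieties over arbitrary infinite fields
-/

namespace Pool.Agent.Q132.GU

open Filter Polynomial H39Gon
open scoped TensorProduct
open Pool.Agent.TH358.GP

/-- an ultrafilter on the rational points of affine space which contains all nonempty Zariski open
sets -/
theorem exists_generic (k : Type) [Field k] [Infinite k] (N : ℕ) :
    ∃ U : Ultrafilter (Fin N → k), ∀ h : MvPolynomial (Fin N) k, h ≠ 0 →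
      ∀ᶠ x in (U : Filter (Fin N → k)), MvPolynomial.eval x h ≠ 0 := by
  classical
  obtain ⟨U, hU⟩ := Ultrafilter.exists_ultrafilter_of_finite_inter_nonempty
    {s : Set (Fin N → k) | ∃ h : MvPolynomial (Fin N) k, h ≠ 0 ∧ s = {x | MvPolynomial.eval x h ≠ 0}}
    (by
      intro T hT
      choose! h hh hs using fun s (hs : s ∈ (T : Set (Set (Fin N → k)))) => hT hs
      have hne : ∏ s ∈ T, h s ≠ 0 := Finset.prod_ne_zero_iff.2 (fun s hs => hh s hs)
      obtain ⟨x, hx⟩ : ∃ x : Fin N → k, MvPolynomial.eval x (∏ s ∈ T, h s) ≠ 0 := by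
        by_contra hcon
        push Not at hcon
        exact hne (MvPolynomial.funext (fun x => by rw [hcon, map_zero]))
      rw [map_prod] at hx
      refine ⟨x, ?_⟩
      rw [Set.mem_sInter]
      intro s hsT
      rw [hs s hsT]
      exact Finset.prod_ne_zero_iff.1 hx s hsT)
  exact ⟨U, fun h hh => hU ⟨h, hh, rfl⟩⟩

/-- the data of a retract rational function field at the generic rational point -/
theorem exists_retract {k F : Type} [Field k] [Field F] [Algebra k F] [Infinite k]
    (hR : RetractRational k F) : ∃ (N : ℕ) (U : Ultrafilter (Fin N → k))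
      (v : F → (Fin N → k) → k) (e : F →+* FU U k), (∀ f, e f = up U (v f)) ∧
      e.comp (algebraMap k F) = cst U k ∧
      ∀ S : Finset F, ∀ᶠ x0 in (U : Filter (Fin N → k)), ∃ σ : F →+* RatFunc F, ∀ f ∈ S,
        spec F 1 (some (σ f)) = some f ∧
          spec F 0 (some (σ f)) = some (algebraMap k F (v f x0)) := by
  classical
  obtain ⟨R, hfrac, N, w, φ, ψ, hw, hψφ⟩ := hR
  obtain ⟨U, hU⟩ := exists_generic k N
  -- elements of `R` as quotients
  have hφ : ∀ r : R, ∃ (P : MvPolynomial (Fin N) k) (m : ℕ),
      φ r * algebraMap _ _ (w ^ m) = algebraMap _ (Localization.Away w) P := by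
    intro r
    obtain ⟨⟨P, ⟨_, m, rfl⟩⟩, hP⟩ := IsLocalization.surj (Submonoid.powers w) (φ r)
    exact ⟨P, m, hP⟩
  choose P m hP using hφ
  have hAinj : Function.Injective (algebraMap (MvPolynomial (Fin N) k) (Localization.Away w)) :=
    IsLocalization.injective _ (powers_le_nonZeroDivisors_of_noZeroDivisors hw)
  -- the `F`-point
  let y : Fin N → F := fun i =>
    (ψ (algebraMap (MvPolynomial (Fin N) k) (Localization.Away w) (MvPolynomial.X i)) : F)
  have hy : ∀ Q : MvPolynomial (Fin N) k, MvPolynomial.eval₂ (algebraMap k F) y Q =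
      (ψ (algebraMap (MvPolynomial (Fin N) k) (Localization.Away w) Q) : F) := by
    intro Q
    have h1 : MvPolynomial.eval₂Hom (algebraMap k F) y =
        (R.val.toRingHom.comp ψ.toRingHom).comp
          (algebraMap (MvPolynomial (Fin N) k) (Localization.Away w)) := by
      apply MvPolynomial.ringHom_ext
      · intro c
        simp only [MvPolynomial.eval₂Hom_C, RingHom.comp_apply, AlgHom.toRingHom_eq_coe,
          RingHom.coe_coe]
        have h2 : algebraMap (MvPolynomial (Fin N) k) (Localization.Away w) (MvPolynomial.C c) =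
            algebraMap k (Localization.Away w) c := by
          rw [IsScalarTower.algebraMap_apply k (MvPolynomial (Fin N) k) (Localization.Away w)]
          rfl
        rw [h2, AlgHom.commutes, AlgHom.commutes]
      · intro i
        simp [y]
    exact congrArg (fun g => g Q) h1
  have hyw : MvPolynomial.eval₂ (algebraMap k F) y w ≠ 0 := by
    rw [hy]
    have h1 : IsUnit (algebraMap (MvPolynomial (Fin N) k) (Localization.Away w) w) :=
      IsLocalization.Away.algebraMap_isUnit w
    have h2 := (h1.map ψ).map R.val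
    exact h2.ne_zero
  -- numerators and denominators
  choose a b hb hab using hfrac
  have hPne : ∀ r : R, (r : F) ≠ 0 → P r ≠ 0 := by
    intro r hr h0
    have h1 := hP r
    rw [h0, map_zero] at h1
    have h2 : IsUnit (algebraMap (MvPolynomial (Fin N) k) (Localization.Away w) (w ^ m r)) := by
      rw [map_pow]
      exact (IsLocalization.Away.algebraMap_isUnit w).pow _
    have h3 : φ r = 0 := by
      rw [h2.mul_left_eq_zero] at h1
      exact h1
    have h4 := hψφ r
    rw [h3, map_zero] at h4
    exact hr (by rw [← h4]; rfl)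
  have hPb : ∀ f : F, P (b f) ≠ 0 := fun f => hPne _ (hb f)
  have hFR : IsFractionRing R F := by
    refine IsFractionRing.of_field R F (fun z => ⟨a z, b z, ?_⟩)
    exact (hab z)
  -- the values at the rational points
  let vR : R → (Fin N → k) → k := fun r x => MvPolynomial.eval x (P r) / MvPolynomial.eval x w ^ m r
  let v : F → (Fin N → k) → k := fun f x => vR (a f) x / vR (b f) x
  -- the embedding
  let E0 : MvPolynomial (Fin N) k →+* FU U k :=
    { toFun := fun Q => up U (fun x => MvPolynomial.eval x Q)
      map_one' := by simp only [map_one]; rfl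
      map_zero' := by simp only [map_zero]; rfl
      map_mul' := fun p q => by simp only [map_mul]; rfl
      map_add' := fun p q => by simp only [map_add]; rfl }
  have hE0 : ∀ Q, E0 Q = up U (fun x => MvPolynomial.eval x Q) := fun Q => rfl
  have hE0ne : ∀ Q, Q ≠ 0 → E0 Q ≠ 0 := by
    intro Q hQ h0
    have h1 : ∀ᶠ x in (U : Filter (Fin N → k)), MvPolynomial.eval x Q = 0 := (up_eq U).1 h0
    obtain ⟨x, hx1, hx2⟩ := (h1.and (hU Q hQ)).exists
    exact hx2 hx1
  let E1 : Localization.Away w →+* FU U k := IsLocalization.Away.lift w (g := E0)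
    (isUnit_iff_ne_zero.2 (hE0ne w hw))
  have hE1 : ∀ Q, E1 (algebraMap _ _ Q) = E0 Q := fun Q => IsLocalization.Away.lift_eq w _ Q
  let eR : R →+* FU U k := E1.comp φ.toRingHom
  have heR : ∀ r : R, eR r = up U (vR r) := by
    intro r
    have h1 := congrArg E1 (hP r)
    rw [map_mul, hE1, hE1] at h1
    have h2 : E0 (w ^ m r) ≠ 0 := hE0ne _ (pow_ne_zero _ hw)
    have h3 : eR r = E0 (P r) / E0 (w ^ m r) := by
      rw [eq_div_iff h2]
      exact h1
    rw [h3, hE0, hE0]
    simp only [map_pow]
    rfl
  have heRinj : Function.Injective eR := by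
    rw [injective_iff_map_eq_zero]
    intro r hr
    by_contra hr0
    have hr1 : (r : F) ≠ 0 := fun h => hr0 (Subtype.ext h)
    rw [heR] at hr
    have h1 : ∀ᶠ x in (U : Filter (Fin N → k)), vR r x = 0 := (up_eq U).1 hr
    obtain ⟨x, ⟨hx1, hx2⟩, hx3⟩ := ((h1.and (hU _ (hPne r hr1))).and (hU w hw)).exists
    exact (div_ne_zero hx2 (pow_ne_zero _ hx3)) hx1
  let e : F →+* FU U k := IsFractionRing.lift heRinj
  have heq : ∀ r : R, e (r : F) = eR r := fun r => IsFractionRing.lift_algebraMap heRinj r
  have he : ∀ f, e f = up U (v f) := by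
    intro f
    conv_lhs => rw [hab f]
    rw [map_div₀, heq, heq, heR, heR]
    rfl
  refine ⟨N, U, v, e, he, ?_, ?_⟩
  · ext c
    have h1 : algebraMap k F c = ((algebraMap k R c : R) : F) := rfl
    rw [RingHom.comp_apply, h1, heq]
    change E1 (φ (algebraMap k R c)) = up U (fun _ => c)
    rw [AlgHom.commutes, IsScalarTower.algebraMap_apply k (MvPolynomial (Fin N) k)
      (Localization.Away w), hE1, hE0]
    congr 1
    funext x
    exact MvPolynomial.eval_C c
  · intro S
    have hev : ∀ᶠ x0 in (U : Filter (Fin N → k)), MvPolynomial.eval x0 w ≠ 0 ∧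
        ∀ f ∈ S, MvPolynomial.eval x0 (P (b f)) ≠ 0 := by
      refine (hU w hw).and ?_
      rw [Filter.eventually_all_finset]
      exact fun f _ => hU _ (hPb f)
    filter_upwards [hev] with x0 hx0
    obtain ⟨hx0w, hx0b⟩ := hx0
    -- the homomorphism on `k[x][1/w]`
    have hA : Function.Injective (algebraMap F[X] (RatFunc F)) := IsFractionRing.injective _ _
    have hγw0 : lineP x0 y w ≠ 0 := by
      intro h0
      apply hyw
      rw [← lineP_one x0 y, h0, eval_zero]
    let g : MvPolynomial (Fin N) k →+* RatFunc F := (algebraMap F[X] (RatFunc F)).comp (lineP x0 y)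
    have hgw : g w ≠ 0 := (map_ne_zero_iff _ hA).2 hγw0
    let γ : Localization.Away w →+* RatFunc F := IsLocalization.Away.lift w (g := g)
      (isUnit_iff_ne_zero.2 hgw)
    have hγ : ∀ Q, γ (algebraMap _ _ Q) = g Q := fun Q => IsLocalization.Away.lift_eq w _ Q
    let σR : R →+* RatFunc F := γ.comp φ.toRingHom
    have hσR : ∀ r : R, σR r = algebraMap F[X] (RatFunc F) (lineP x0 y (P r)) /
        algebraMap F[X] (RatFunc F) (lineP x0 y (w ^ m r)) := by
      intro r
      have h1 := congrArg γ (hP r)
      rw [map_mul, hγ, hγ] at h1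
      have h2 : algebraMap F[X] (RatFunc F) (lineP x0 y (w ^ m r)) ≠ 0 := by
        rw [map_pow, map_pow]
        exact pow_ne_zero _ hgw
      rw [eq_div_iff h2]
      exact h1
    have hσ1 : ∀ r : R, spec F 1 (some (σR r)) = some (r : F) := by
      intro r
      rw [hσR, spec_div 1 _ _ (by
        rw [lineP_one, MvPolynomial.eval₂_pow]
        exact pow_ne_zero _ hyw), lineP_one, lineP_one, MvPolynomial.eval₂_pow]
      congr 1
      rw [div_eq_iff (pow_ne_zero _ hyw)]
      have h1 := congrArg (fun z => (ψ z : F)) (hP r)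
      simp only [map_mul, hψφ] at h1
      rw [← hy] at h1
      rw [← h1, ← MvPolynomial.eval₂_pow, hy]
      rfl
    have hσ0 : ∀ r : R, spec F 0 (some (σR r)) = some (algebraMap k F (vR r x0)) := by
      intro r
      rw [hσR, spec_div 0 _ _ (by
        rw [lineP_zero, map_pow, map_pow]
        exact pow_ne_zero _ ((map_ne_zero_iff _ (algebraMap k F).injective).2 hx0w)),
        lineP_zero, lineP_zero, map_div₀, map_pow]
    have hσinj : Function.Injective σR := by
      intro r s hrs
      have h1 := hσ1 r
      rw [hrs, hσ1] at h1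
      exact (Subtype.ext (Option.some.inj h1)).symm
    let σ : F →+* RatFunc F := IsFractionRing.lift hσinj
    have hσ : ∀ r : R, σ (r : F) = σR r := fun r => IsFractionRing.lift_algebraMap hσinj r
    refine ⟨σ, fun f hf => ?_⟩
    have hf1 : σ f = σR (a f) / σR (b f) := by
      conv_lhs => rw [hab f]
      rw [map_div₀, hσ, hσ]
    constructor
    · rw [hf1, spec_some_div 1 _ _ _ _ (hσ1 (a f)) (hσ1 (b f)) (hb f), ← hab f]
    · have hb0 : algebraMap k F (vR (b f) x0) ≠ 0 :=
        (map_ne_zero_iff _ (algebraMap k F).injective).2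
          (div_ne_zero (hx0b f hf) (pow_ne_zero _ hx0w))
      rw [hf1, spec_some_div 0 _ _ _ _ (hσ0 (a f)) (hσ0 (b f)) hb0, ← map_div₀]

section main

variable {k F : Type} [Field k] [Field F] [Algebra k F]

/-- the values of an element of `ℤ[P^1_F]` -/
theorem rho_values {ι : Type} (U : Ultrafilter ι) (v : F → ι → k) (e : F →+* FU U k)
    (he : ∀ f, e f = up U (v f)) (α : ZP F) :
    rho U k (rmM e α) = up U (fun i => α.mapDomain (Option.map (fun f => v f i))) := by
  refine (zext ((rho U k).comp (rmM e)) (AddMonoidHom.toIntLinearMap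
    { toFun := fun α : ZP F => up U (fun i => α.mapDomain (Option.map (fun f => v f i)))
      map_zero' := by
        simp only [Finsupp.mapDomain_zero]
        rfl
      map_add' := fun α β => by
        simp only [Finsupp.mapDomain_add]
        rfl }) (fun x => ?_) α :)
  change rho U k (rmM e (Finsupp.single x 1)) =
    up U (fun i => (Finsupp.single x 1 : ZP F).mapDomain (Option.map (fun f => v f i)))
  rw [rmM_single]
  cases x with
  | none =>
    rw [rho_single U _ (fun _ => none) rfl]
    simp
  | some f =>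
    rw [rho_single U _ (fun i => some (v f i)) (by rw [Option.map_some, he]; rfl)]
    simp

/-- elements killed by `δ` are constant modulo relations, with value killed by `δ` -/
theorem const_general [Infinite k] (hR : RetractRational k F) (m : ℕ) {C : Type} [AddCommGroup C]
    (A' : Submodule ℤ (ZP (RatFunc F))) (hA' : relSpan F A' = R (m + 2) F)
    (δ : ZP k →ₗ[ℤ] C) (α : ZP F) (hα : ∀ σ : F →+* RatFunc F, rmM σ α ∈ A')
    (hδ : ∀ {ι : Type} (U : Ultrafilter ι) (e : F →+* FU U k),
      upM U δ (rho U k (rmM e α)) = 0) :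
    ∃ β : ZP k, δ β = 0 ∧ α - β.mapDomain (Option.map (algebraMap k F)) ∈ R (m + 2) F := by
  classical
  obtain ⟨N, U, v, e, he, -, hσ⟩ := exists_retract hR
  have h1 := hδ U e
  rw [rho_values U v e he, upM_up, up_eq_zero] at h1
  obtain ⟨x0, hx0, σ, hσ⟩ := (h1.and (hσ (α.support.biUnion (fun x => x.toFinset)))).exists
  refine ⟨α.mapDomain (Option.map (fun f => v f x0)), hx0, ?_⟩
  have hmem : ∀ f : F, some f ∈ α.support → f ∈ α.support.biUnion (fun x => x.toFinset) := by
    intro f hf
    rw [Finset.mem_biUnion]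
    exact ⟨some f, hf, by simp⟩
  have e1 : specZ F 1 (rmM σ α) = α := by
    rw [specZ, rmM, Finsupp.lmapDomain_apply, Finsupp.lmapDomain_apply, ← Finsupp.mapDomain_comp]
    conv_rhs => rw [← Finsupp.mapDomain_id (v := α)]
    refine Finsupp.mapDomain_congr fun x hx => ?_
    cases x with
    | none => rfl
    | some f => exact (hσ f (hmem f hx)).1
  have e0 : specZ F 0 (rmM σ α) =
      (α.mapDomain (Option.map (fun f => v f x0))).mapDomain (Option.map (algebraMap k F)) := by
    rw [specZ, rmM, Finsupp.lmapDomain_apply, Finsupp.lmapDomain_apply, ← Finsupp.mapDomain_comp,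
      ← Finsupp.mapDomain_comp]
    refine Finsupp.mapDomain_congr fun x hx => ?_
    cases x with
    | none => rfl
    | some f => exact (hσ f (hmem f hx)).2
  rw [← e0]
  have h2 : specZ F 0 (rmM σ α) - specZ F 1 (rmM σ α) ∈ R (m + 2) F := by
    rw [← hA']
    exact Submodule.subset_span (Or.inr ⟨_, hα σ, rfl⟩)
  rw [e1] at h2
  have h3 := Submodule.neg_mem _ h2
  rwa [neg_sub] at h3

theorem const_two [Infinite k] (hR : RetractRational k F) (α : ZP F) (hα : delta2 F α = 0) :
    ∃ β : ZP k, delta2 k β = 0 ∧ α - β.mapDomain (Option.map (algebraMap k F)) ∈ R 2 F := by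
  refine const_general hR 0 (LinearMap.ker (delta2 (RatFunc F))) rfl (delta2 k) α (fun σ => ?_)
    (fun U e => ker_delta2 U e α hα)
  rw [LinearMap.mem_ker, rm_delta2, hα, map_zero]

theorem const_step [Infinite k] (hR : RetractRational k F) (m : ℕ) (α : ZP F)
    (hα : deltaS F (R (m + 2) F) α = 0) :
    ∃ β : ZP k, deltaS k (R (m + 2) k) β = 0 ∧
      α - β.mapDomain (Option.map (algebraMap k F)) ∈ R (m + 3) F := by
  refine const_general hR (m + 1) (LinearMap.ker (deltaS (RatFunc F) (R (m + 2) (RatFunc F)))) rfl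
    (deltaS k (R (m + 2) k)) α (fun σ => ?_) (fun U e => ker_deltaS U e m α hα)
  rw [LinearMap.mem_ker, rm_deltaS σ (R (m + 2) F) _ (fun s hs => R_map σ m s hs), hα, map_zero]

end main

end Pool.Agent.Q132.GU
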