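import Pool.Agent.Q132.GU.Germ

set_option autoImplicit false

/-!
# Relations over an ultrapower are germs of relations
-/

namespace Pool.Agent.Q132.GU

open Filter Polynomial H39Gon
open scoped TensorProduct

section base

variable {ι : Type} (U : Ultrafilter ι)

/-! ### units -/

/-- the units of the ultrapower -/
noncomputable def nu (F : Type) [Field F] : UV (FU U F) →ₗ[ℤ] UP U (UV F) :=
  AddMonoidHom.toIntLinearMap
    { toFun := fun u => (Germ.map (fun x : F => cl x) ((u.toMul : (FU U F)ˣ) : FU U F) :
        Germ (U : Filter ι) (UV F))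
      map_zero' := by
        change up U (fun _ => cl (1 : F)) = up U (fun _ => 0)
        rw [H39Gon.E2.cl_one]
      map_add' := by
        intro u v
        obtain ⟨a, ha⟩ := rep U ((u.toMul : (FU U F)ˣ) : FU U F)
        obtain ⟨b, hb⟩ := rep U ((v.toMul : (FU U F)ˣ) : FU U F)
        have hmul : (((u + v).toMul : (FU U F)ˣ) : FU U F) =
            ((fun i => a i * b i : ι → F) : Germ (U : Filter ι) F) := by
          rw [toMul_add, Units.val_mul, ha, hb]
          rfl
        rw [hmul, ha, hb]
        change up U (fun i => cl (a i * b i)) = up U (fun i => cl (a i) + cl (b i))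
        have ha0 : ∀ᶠ i in (U : Filter ι), a i ≠ 0 := by
          rw [Ultrafilter.eventually_not]
          intro h
          apply (u.toMul : (FU U F)ˣ).ne_zero
          rw [ha]
          exact (up_eq U).2 h
        have hb0 : ∀ᶠ i in (U : Filter ι), b i ≠ 0 := by
          rw [Ultrafilter.eventually_not]
          intro h
          apply (v.toMul : (FU U F)ˣ).ne_zero
          rw [hb]
          exact (up_eq U).2 h
        rw [up_eq]
        filter_upwards [ha0, hb0] with i hi hj
        rw [cl, cl, cl, dif_neg hi, dif_neg hj, dif_neg (mul_ne_zero hi hj), ← ofMul_mul]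
        congr 1
        ext
        simp }

theorem nu_cl {F : Type} [Field F] (a : ι → F) :
    nu U F (cl ((a : Germ (U : Filter ι) F) : FU U F)) = up U (fun i => cl (a i)) := by
  by_cases h : ((a : Germ (U : Filter ι) F) : FU U F) = 0
  · rw [h, H39Gon.E2.cl_zero, map_zero]
    symm
    rw [up_eq_zero]
    have h1 : ∀ᶠ i in (U : Filter ι), a i = 0 := (up_eq U).1 h
    filter_upwards [h1] with i hi
    rw [hi, H39Gon.E2.cl_zero]
  · rw [cl, dif_neg h]
    rfl

/-! ### exterior powers -/

/-- the exterior product of germs -/
noncomputable def wU {V : Type} [AddCommGroup V] (j : ℕ) (y : Fin j → UP U V) :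
    UP U (⋀[ℤ]^j V) :=
  up U (fun i => exteriorPower.ιMulti ℤ j (fun k => (Quotient.out (y k) : ι → V) i))

theorem out_eq {V : Type} (y : UP U V) : up U (Quotient.out y : ι → V) = y := Quotient.out_eq y

theorem wU_up {V : Type} [AddCommGroup V] (j : ℕ) (y : Fin j → UP U V) (f : Fin j → ι → V)
    (h : ∀ k, y k = up U (f k)) :
    wU U j y = up U (fun i => exteriorPower.ιMulti ℤ j (fun k => f k i)) := by
  unfold wU
  rw [up_eq]
  have h1 : ∀ k, ∀ᶠ i in (U : Filter ι), (Quotient.out (y k) : ι → V) i = f k i := by
    intro k
    rw [← up_eq U, out_eq, h k]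
  filter_upwards [Filter.eventually_all.2 h1] with i hi
  congr 1
  funext k
  exact hi k

/-- the exterior product as an alternating map -/
noncomputable def wA (V : Type) [AddCommGroup V] (j : ℕ) : UP U V [⋀^Fin j]→ₗ[ℤ] UP U (⋀[ℤ]^j V) where
  toFun y := wU U j y
  map_update_add' := by
    intro _ m k x y
    classical
    have hm : ∀ l, ∃ f : ι → V, m l = up U f := fun l => ⟨_, (out_eq U (m l)).symm⟩
    choose f hf using hm
    obtain ⟨fx, rfl⟩ : ∃ fx : ι → V, x = up U fx := ⟨_, (out_eq U x).symm⟩
    obtain ⟨fy, rfl⟩ : ∃ fy : ι → V, y = up U fy := ⟨_, (out_eq U y).symm⟩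
    have key : ∀ g : ι → V, wU U j (Function.update m k (up U g)) =
        up U (fun i => exteriorPower.ιMulti ℤ j (Function.update (fun l => f l i) k (g i))) := by
      intro g
      rw [wU_up U j _ (Function.update f k g)]
      · rw [up_eq]
        refine Filter.Eventually.of_forall fun i => ?_
        congr 1
        funext l
        by_cases h : l = k
        · subst h; simp
        · simp [h]
      · intro l
        by_cases h : l = k
        · subst h; simp
        · simp [h, hf]
    have e2 := key fx
    have e3 := key fy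
    have e4 := key (fun i => fx i + fy i)
    change wU U j (Function.update m k (up U (fun i => fx i + fy i))) =
      wU U j (Function.update m k (up U fx)) + wU U j (Function.update m k (up U fy))
    rw [e2, e3, e4, up_add, up_eq]
    refine Filter.Eventually.of_forall fun i => ?_
    exact (exteriorPower.ιMulti ℤ j).map_update_add _ _ _ _
  map_update_smul' := by
    intro _ m k c x
    classical
    have hm : ∀ l, ∃ f : ι → V, m l = up U f := fun l => ⟨_, (out_eq U (m l)).symm⟩
    choose f hf using hm
    obtain ⟨fx, rfl⟩ : ∃ fx : ι → V, x = up U fx := ⟨_, (out_eq U x).symm⟩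
    have key : ∀ g : ι → V, wU U j (Function.update m k (up U g)) =
        up U (fun i => exteriorPower.ιMulti ℤ j (Function.update (fun l => f l i) k (g i))) := by
      intro g
      rw [wU_up U j _ (Function.update f k g)]
      · rw [up_eq]
        refine Filter.Eventually.of_forall fun i => ?_
        congr 1
        funext l
        by_cases h : l = k
        · subst h; simp
        · simp [h]
      · intro l
        by_cases h : l = k
        · subst h; simp
        · simp [h, hf]
    have e2 := key fx
    have e4 := key (fun i => c • fx i)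
    change wU U j (Function.update m k (up U (fun i => c • fx i))) =
      c • wU U j (Function.update m k (up U fx))
    rw [e2, e4, up_zsmul, up_eq]
    refine Filter.Eventually.of_forall fun i => ?_
    exact (exteriorPower.ιMulti ℤ j).map_update_smul _ _ _ _
  map_eq_zero_of_eq' := by
    intro m a b hab hne
    have hm : ∀ l, ∃ f : ι → V, m l = up U f := fun l => ⟨_, (out_eq U (m l)).symm⟩
    choose f hf using hm
    change wU U j m = 0
    rw [wU_up U j m f hf, up_eq_zero]
    rw [hf, hf, up_eq] at hab
    filter_upwards [hab] with i hi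
    exact (exteriorPower.ιMulti ℤ j).map_eq_zero_of_eq _ hi hne

/-- the exterior powers of the group of units -/
noncomputable def lamU (F : Type) [Field F] (j : ℕ) :
    (⋀[ℤ]^j (UV (FU U F))) →ₗ[ℤ] UP U (⋀[ℤ]^j (UV F)) :=
  exteriorPower.alternatingMapLinearEquiv ((wA U (UV F) j).compLinearMap (nu U F))

theorem lamU_apply (F : Type) [Field F] (j : ℕ) (y : Fin j → UV (FU U F)) (f : Fin j → ι → UV F)
    (h : ∀ k, nu U F (y k) = up U (f k)) :
    lamU U F j (exteriorPower.ιMulti ℤ j y) =
      up U (fun i => exteriorPower.ιMulti ℤ j (fun k => f k i)) := by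
  unfold lamU
  rw [exteriorPower.alternatingMapLinearEquiv_apply_ιMulti, AlternatingMap.compLinearMap_apply]
  exact wU_up U j _ f h

/-! ### `ℤ[P^1]` -/

/-- `ℤ[P^1]` of the ultrapower -/
noncomputable def rho (F : Type) : ZP (FU U F) →ₗ[ℤ] UP U (ZP F) :=
  Finsupp.linearCombination ℤ (fun x : P1 (FU U F) =>
    upF U (fun p : P1 F => (Finsupp.single p 1 : ZP F)) (eP U x))

theorem zext {G M : Type} [AddCommGroup M] (f g : ZP G →ₗ[ℤ] M)
    (h : ∀ x, f (Finsupp.single x 1) = g (Finsupp.single x 1)) (β : ZP G) : f β = g β := by
  have h1 : f = g := by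
    apply Finsupp.lhom_ext'
    intro x
    apply LinearMap.ext_ring
    exact h x
  rw [h1]

theorem rho_single {F : Type} (x : P1 (FU U F)) (f : ι → P1 F) (h : eP U x = up U f) :
    rho U F (Finsupp.single x 1) = up U (fun i => Finsupp.single (f i) 1) := by
  unfold rho
  rw [Finsupp.linearCombination_single, one_smul, h]
  rfl

theorem eP_rep {F : Type} (x : P1 (FU U F)) : ∃ f : ι → P1 F, eP U x = up U f :=
  ⟨_, (out_eq U (eP U x)).symm⟩

theorem rho_specZ (F : Type) [Field F] (t0 : F) (α : ZP (RatFunc (FU U F))) :
    rho U F (specZ (FU U F) (cst U F t0) α) =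
      upM U (specZ F t0) (rho U (RatFunc F) (rmM (sg U F) α)) := by
  refine zext ((rho U F).comp (specZ (FU U F) (cst U F t0)))
    (((upM U (specZ F t0)).comp (rho U (RatFunc F))).comp (rmM (sg U F))) (fun x => ?_) α
  · change rho U F (specZ (FU U F) (cst U F t0) (Finsupp.single x 1)) =
      upM U (specZ F t0) (rho U (RatFunc F) (rmM (sg U F) (Finsupp.single x 1)))
    rw [rmM_single]
    obtain ⟨f, hf⟩ := eP_rep U (x.map (sg U F))
    rw [rho_single U _ f hf, upM_up]
    rw [specZ, Finsupp.lmapDomain_apply, Finsupp.mapDomain_single]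
    rw [rho_single U _ (fun i => spec F t0 (f i))]
    · rw [up_eq]
      refine Filter.Eventually.of_forall fun i => ?_
      rw [specZ, Finsupp.lmapDomain_apply, Finsupp.mapDomain_single]
    · rw [eP_spec, hf, upF_up]

theorem delta2_nat (G : Type) [Field G] (β : ZP (FU U G)) :
    upM U (delta2 G) (rho U G β) = lamU U G 2 (delta2 (FU U G) β) := by
  refine zext ((upM U (delta2 G)).comp (rho U G)) ((lamU U G 2).comp (delta2 (FU U G)))
    (fun x => ?_) β
  · change upM U (delta2 G) (rho U G (Finsupp.single x 1)) =
      lamU U G 2 (delta2 (FU U G) (Finsupp.single x 1))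
    cases x with
    | none =>
      rw [rho_single U none (fun _ => none) rfl, upM_up]
      simp only [delta2, Finsupp.linearCombination_single, one_smul, map_zero]
      rfl
    | some z =>
      induction z using Germ.inductionOn with | _ a => ?_
      rw [rho_single U _ (fun i => some (a i)) (eP_some U a), upM_up]
      simp only [delta2, Finsupp.linearCombination_single, one_smul]
      rw [lamU_apply U G 2 _ ![fun i => cl (1 - a i), fun i => cl (a i)]]
      · rw [up_eq]
        refine Filter.Eventually.of_forall fun i => ?_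
        congr 1
        funext k
        fin_cases k <;> rfl
      · intro k
        fin_cases k
        · exact nu_cl U (fun i => 1 - a i)
        · exact nu_cl U a

/-- the quotients -/
noncomputable def qU (G : Type) (S' : Submodule ℤ (ZP (FU U G))) (S : Submodule ℤ (ZP G))
    (h : ∀ s ∈ S', upM U S.mkQ (rho U G s) = 0) : (ZP (FU U G) ⧸ S') →ₗ[ℤ] UP U (ZP G ⧸ S) :=
  S'.liftQ ((upM U S.mkQ).comp (rho U G)) (fun s hs => h s hs)

theorem deltaS_nat (G : Type) [Field G] (S' : Submodule ℤ (ZP (FU U G))) (S : Submodule ℤ (ZP G))
    (h : ∀ s ∈ S', upM U S.mkQ (rho U G s) = 0) (β : ZP (FU U G)) :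
    upM U (deltaS G S) (rho U G β) =
      TensorProduct.lift ((upB U (TensorProduct.mk ℤ (ZP G ⧸ S) (UV G))).compl₁₂
        (qU U G S' S h) (nu U G)) (deltaS (FU U G) S' β) := by
  refine zext ((upM U (deltaS G S)).comp (rho U G))
      ((TensorProduct.lift ((upB U (TensorProduct.mk ℤ (ZP G ⧸ S) (UV G))).compl₁₂
        (qU U G S' S h) (nu U G))).comp (deltaS (FU U G) S')) (fun x => ?_) β
  · change upM U (deltaS G S) (rho U G (Finsupp.single x 1)) =
      (TensorProduct.lift ((upB U (TensorProduct.mk ℤ (ZP G ⧸ S) (UV G))).compl₁₂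
        (qU U G S' S h) (nu U G))) (deltaS (FU U G) S' (Finsupp.single x 1))
    cases x with
    | none =>
      rw [rho_single U none (fun _ => none) rfl, upM_up]
      simp only [deltaS, Finsupp.linearCombination_single, one_smul, map_zero]
      rfl
    | some z =>
      induction z using Germ.inductionOn with | _ a => ?_
      rw [rho_single U _ (fun i => some (a i)) (eP_some U a), upM_up]
      simp only [deltaS, Finsupp.linearCombination_single, one_smul]
      rw [TensorProduct.lift.tmul, LinearMap.compl₁₂_apply, nu_cl]
      have h2 : qU U G S' S h (S'.mkQ (Finsupp.single (some (a : Germ (U : Filter ι) G)) 1)) =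
          up U (fun i => S.mkQ (Finsupp.single (some (a i)) 1)) := by
        change upM U S.mkQ (rho U G (Finsupp.single (some (a : Germ (U : Filter ι) G)) 1)) = _
        rw [rho_single U _ (fun i => some (a i)) (eP_some U a), upM_up]
      rw [h2]
      rfl

/-- relations over the ultrapower are germs of relations -/
theorem transfer (m : ℕ) : ∀ (F : Type) [Field F] (r : ZP (FU U F)), r ∈ R (m + 2) (FU U F) →
    upM U (R (m + 2) F).mkQ (rho U F r) = 0 := by
  -- the step
  have step : ∀ (F : Type) [Field F] (A' : Submodule ℤ (ZP (RatFunc (FU U F))))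
      (A : Submodule ℤ (ZP (RatFunc F))) (C : Type) [AddCommGroup C]
      (δ : ZP (RatFunc F) →ₗ[ℤ] C), A = LinearMap.ker δ →
      (∀ α ∈ A', upM U δ (rho U (RatFunc F) (rmM (sg U F) α)) = 0) →
      ∀ r ∈ relSpan (FU U F) A', upM U (relSpan F A).mkQ (rho U F r) = 0 := by
    intro F _ A' A C _ δ hA hδ r hr
    have hle : relSpan (FU U F) A' ≤
        LinearMap.ker ((upM U (relSpan F A).mkQ).comp (rho U F)) := by
      unfold relSpan
      rw [Submodule.span_le]
      rintro β (hβ | ⟨α, hα, rfl⟩)
      · rw [SetLike.mem_coe, LinearMap.mem_ker, LinearMap.comp_apply]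
        rcases hβ with rfl | hβ
        · rw [rho_single U (some 0) (fun _ => some 0) rfl, upM_up, up_eq_zero]
          refine Filter.Eventually.of_forall fun i => ?_
          rw [Submodule.mkQ_apply, Submodule.Quotient.mk_eq_zero]
          exact Submodule.subset_span (Or.inl (Or.inl rfl))
        · rw [Set.mem_singleton_iff] at hβ
          subst hβ
          rw [rho_single U none (fun _ => none) rfl, upM_up, up_eq_zero]
          refine Filter.Eventually.of_forall fun i => ?_
          rw [Submodule.mkQ_apply, Submodule.Quotient.mk_eq_zero]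
          exact Submodule.subset_span (Or.inl (Or.inr rfl))
      · rw [SetLike.mem_coe, LinearMap.mem_ker, LinearMap.comp_apply, map_sub]
        have e0 := rho_specZ U F 0 α
        have e1 := rho_specZ U F 1 α
        rw [map_zero] at e0
        rw [map_one] at e1
        rw [e0, e1]
        have h2 := hδ α hα
        revert h2
        generalize rho U (RatFunc F) (rmM (sg U F) α) = β
        induction β using up_ind with | _ g => ?_
        intro h2
        rw [upM_up, up_eq_zero] at h2
        rw [upM_up, upM_up, up_sub, upM_up, up_eq_zero]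
        filter_upwards [h2] with i hi
        rw [Submodule.mkQ_apply, Submodule.Quotient.mk_eq_zero]
        refine Submodule.subset_span (Or.inr ⟨g i, ?_, rfl⟩)
        rw [hA, LinearMap.mem_ker]
        exact hi
    exact hle hr
  induction m with
  | zero =>
    intro F _ r hr
    refine step F (LinearMap.ker (delta2 (RatFunc (FU U F)))) (LinearMap.ker (delta2 (RatFunc F)))
      _ (delta2 (RatFunc F)) rfl (fun α hα => ?_) r hr
    rw [delta2_nat, rm_delta2, LinearMap.mem_ker.1 hα, map_zero, map_zero]
  | succ m ih =>
    intro F _ r hr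
    refine step F (LinearMap.ker (deltaS (RatFunc (FU U F)) (R (m + 2) (RatFunc (FU U F)))))
      (LinearMap.ker (deltaS (RatFunc F) (R (m + 2) (RatFunc F))))
      _ (deltaS (RatFunc F) (R (m + 2) (RatFunc F))) rfl (fun α hα => ?_) r hr
    rw [deltaS_nat U (RatFunc F) (R (m + 2) (FU U (RatFunc F))) (R (m + 2) (RatFunc F))
      (fun s hs => ih (RatFunc F) s hs)]
    rw [rm_deltaS (sg U F) (R (m + 2) (RatFunc (FU U F))) (R (m + 2) (FU U (RatFunc F)))
      (fun s hs => R_map (sg U F) m s hs), LinearMap.mem_ker.1 hα, map_zero, map_zero]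

end base

end Pool.Agent.Q132.GU
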